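import Mathlib
import Pool.Agent.QuadPoly.Defs
import Pool.Agent.QuadPoly.Final

namespace Pool.Agent.Results.MP_5cbcf2_nt.IntrinsicExtrinsic

open Pool.Agent.QuadPoly.Defs

/-- Q1 of MP_5cbcf2_nt, answered in the affirmative, together with an explicit uniform form:
rank at least `5` (for every `s`) and `p ≥ 2sd` suffice. -/
theorem result :
    (∃ C P : ℕ → ℕ, ∀ d s : ℕ, 1 ≤ d → 1 ≤ s → ∀ p : ℕ, p.Prime → P d ≤ p →
      ∀ A : Matrix (Fin d) (Fin d) (ZMod p), A.IsSymm → C s ≤ A.rank →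
      ∀ g : (Fin d → ZMod p) → ZMod p, CondI A s g ↔ CondII A s g) ∧
    (∀ d s p : ℕ, 1 ≤ s → p.Prime → 2 * s * d ≤ p →
      ∀ A : Matrix (Fin d) (Fin d) (ZMod p), A.IsSymm → 5 ≤ A.rank →
      ∀ g : (Fin d → ZMod p) → ZMod p, CondI A s g ↔ CondII A s g) := by
  refine ⟨⟨fun s => max 5 s, fun d => 2 * d * d, ?_⟩, ?_⟩
  · intro d s _ hs p hp hPd A hA hC g
    have := Fact.mk hp
    have hrd : A.rank ≤ d := by
      have := Matrix.rank_le_card_width A
      simpa using this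
    have h5 : 5 ≤ A.rank := (le_max_left 5 s).trans hC
    have hsr : s ≤ d := ((le_max_right 5 s).trans hC).trans hrd
    refine Pool.Agent.QuadPoly.main hA h5 hs (le_trans ?_ hPd) g
    exact Nat.mul_le_mul_right d (Nat.mul_le_mul_left 2 hsr)
  · intro d s p hs hp hps A hA hr g
    have := Fact.mk hp
    exact Pool.Agent.QuadPoly.main hA hr hs hps g

end Pool.Agent.Results.MP_5cbcf2_nt.IntrinsicExtrinsic
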